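import Pool.Agent.T9h78.Sing.Spec

/-!
# (M) The field model (helper41): `StModel` of `T9h78.Sing.Spec`
-/

set_option autoImplicit false

namespace Pool.Agent.T9h41.Sing

open Pool.Agent.T9h78.Sing Polynomial

universe u

section

variable {F V : Type u} [Field F] [AddCommGroup V] [Module F V]

/-- an irreducible map is the multiplication by a generator of a field -/
lemma exists_field (hV : Nontrivial V) (c : V ≃ₗ[F] V) (hirr : IsIrred c) :
    ∃ (L : Type u) (_ : Field L) (_ : Algebra F L) (e : V ≃ₗ[F] L) (θ : L),
      (∀ x, e (c x) = θ * e x) ∧ ∀ a : L, ∃ p : F[X], Polynomial.aeval θ p = a := by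
  set φ : V →ₗ[F] V := c.toLinearMap with hφ
  have hs : IsSimpleModule F[X] (Module.AEval' φ) := by
    have : IsSimpleOrder (Submodule F[X] (Module.AEval' φ)) := by
      have : Nontrivial (Module.AEval' φ) := (Module.AEval'.of φ).injective.nontrivial
      have : Nontrivial (Submodule F[X] (Module.AEval' φ)) := inferInstance
      refine ⟨fun N => ?_⟩
      have h := hirr ((N.restrictScalars F).comap (Module.AEval'.of φ).toLinearMap) (fun x hx => by
        rw [Submodule.mem_comap, Submodule.restrictScalars_mem] at hx ⊢
        have h1 := N.smul_mem (X : F[X]) hx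
        have h2 : (X : F[X]) • (Module.AEval'.of φ) x = (Module.AEval'.of φ) (φ x) :=
          Module.AEval'.X_smul_of φ x
        rw [LinearEquiv.coe_coe] at h1 ⊢
        rw [h2] at h1
        exact h1)
      rcases h with h | h
      · left
        rw [eq_bot_iff]
        intro y hy
        have h1 : (Module.AEval'.of φ).symm y ∈
            (N.restrictScalars F).comap (Module.AEval'.of φ).toLinearMap := by
          rw [Submodule.mem_comap, Submodule.restrictScalars_mem, LinearEquiv.coe_coe,
            LinearEquiv.apply_symm_apply]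
          exact hy
        rw [h, Submodule.mem_bot] at h1
        rw [Submodule.mem_bot]
        rw [← (Module.AEval'.of φ).apply_symm_apply y, h1, map_zero]
      · right
        rw [eq_top_iff]
        intro y _
        have h1 : (Module.AEval'.of φ).symm y ∈
            (N.restrictScalars F).comap (Module.AEval'.of φ).toLinearMap := by
          rw [h]; exact Submodule.mem_top
        rw [Submodule.mem_comap, Submodule.restrictScalars_mem, LinearEquiv.coe_coe,
          LinearEquiv.apply_symm_apply] at h1
        exact h1
    exact (isSimpleModule_iff _ _).2 this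
  obtain ⟨I, hI, ⟨E⟩⟩ := isSimpleModule_iff_quot_maximal.1 hs
  let _ : Field (F[X] ⧸ I) := Ideal.Quotient.field I
  refine ⟨F[X] ⧸ I, inferInstance, inferInstance,
    (Module.AEval'.of φ).trans (E.restrictScalars F), Ideal.Quotient.mk I X, fun x => ?_,
    fun a => ?_⟩
  · rw [LinearEquiv.trans_apply, LinearEquiv.trans_apply, LinearEquiv.restrictScalars_apply,
      LinearEquiv.restrictScalars_apply]
    have h2 : (X : F[X]) • (Module.AEval'.of φ) x = (Module.AEval'.of φ) (φ x) :=
      Module.AEval'.X_smul_of φ x
    have h3 : (Module.AEval'.of φ) (c x) = (X : F[X]) • (Module.AEval'.of φ) x := h2.symm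
    rw [h3, map_smul]
    rfl
  · obtain ⟨p, rfl⟩ := Ideal.Quotient.mk_surjective a
    refine ⟨p, ?_⟩
    have h1 : Ideal.Quotient.mk I X = Ideal.Quotient.mkₐ F I X := rfl
    rw [h1, Polynomial.aeval_algHom_apply, Polynomial.aeval_X_left_apply]
    rfl

end

theorem stModel : StModel.{u} := by
  intro F V _ _ _ _ _ n X c κ hn hfin hirr hord hnd hXc hκ hsym
  set q := Fintype.card F with hq
  have hq1 : 1 < q := Fintype.one_lt_card
  have hV : Nontrivial V := Module.nontrivial_of_finrank_pos (R := F) (by omega)
  obtain ⟨L, fL, aL, e, θ, he, hgen⟩ := exists_field hV c hirr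
  have hfd : FiniteDimensional F L := e.finiteDimensional
  have hfinL : Module.finrank F L = 2 * n := by rw [← e.finrank_eq, hfin]
  have hFin : Finite L := Module.finite_of_finite F
  let ftL : Fintype L := Fintype.ofFinite L
  have hcardL : Fintype.card L = q ^ (2 * n) := by
    rw [Module.card_eq_pow_finrank (K := F) (V := L), hfinL]
  obtain ⟨p, hp⟩ := CharP.exists F
  have hpp : p.Prime := (CharP.char_is_prime_or_zero F p).resolve_right fun h0 => by
    subst h0
    exact (CharP.char_ne_zero_of_finite F 0) rfl
  have : Fact p.Prime := ⟨hpp⟩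
  have hpL : CharP L p := charP_of_injective_algebraMap (algebraMap F L).injective p
  obtain ⟨r, -, hqr⟩ := FiniteField.card F p
  set Q := q ^ n with hQ
  have hQp : Q = p ^ ((r : ℕ) * n) := by rw [hQ, hq, hqr, ← pow_mul]
  -- the Frobenius
  have hadd : ∀ a b : L, (a + b) ^ Q = a ^ Q + b ^ Q := by
    intro a b
    rw [hQp]
    exact add_pow_char_pow a b p _
  have hFQ : ∀ f : F, f ^ Q = f := fun f => by
    rw [hQ]
    exact FiniteField.pow_card_pow n f
  have hQQ : ∀ a : L, (a ^ Q) ^ Q = a := by
    intro a
    rw [← pow_mul, hQ, ← pow_add, show n + n = 2 * n by ring, ← hcardL]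
    exact FiniteField.pow_card a
  let σ : L →ₐ[F] L :=
    { toFun := fun a => a ^ Q
      map_one' := one_pow _
      map_mul' := fun a b => mul_pow a b Q
      map_zero' := zero_pow (by positivity)
      map_add' := hadd
      commutes' := fun f => by
        change (algebraMap F L f) ^ Q = algebraMap F L f
        rw [← map_pow, hFQ] }
  have hσ : ∀ a, σ a = a ^ Q := fun a => rfl
  let σe : L ≃ₐ[F] L := AlgEquiv.ofBijective σ ⟨σ.toRingHom.injective,
    fun a => ⟨a ^ Q, by rw [hσ, hQQ]⟩⟩
  have htr : ∀ z : L, Algebra.trace F L (z ^ Q) = Algebra.trace F L z := by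
    intro z
    exact Algebra.trace_eq_of_algEquiv σe z
  -- the powers of c
  have hθ0 : θ ≠ 0 := by
    intro h0
    obtain ⟨x, hx⟩ := exists_ne (0 : V)
    have h1 := he x
    rw [h0, zero_mul] at h1
    have h2 : c x = 0 := by
      apply e.injective
      rw [h1, map_zero]
    exact hx (c.injective (by rw [h2, map_zero]))
  have hpow : ∀ (m : ℕ) (x : V), e ((c ^ m) x) = θ ^ m * e x := by
    intro m
    induction m with
    | zero => intro x; simp
    | succ m ih =>
      intro x
      rw [pow_succ', LinearEquiv.mul_apply, he, ih, pow_succ']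
      ring
  have hθQ : θ ^ (Q + 1) = 1 := by
    have h1 := hpow (Q + 1) (e.symm 1)
    rw [← hord, pow_orderOf_eq_one] at h1
    rw [← hord]
    rw [LinearEquiv.coe_one, id, LinearEquiv.apply_symm_apply, mul_one] at h1
    exact h1.symm
  -- the adjoint
  have hadj : ∀ (a : L) (x y : V), X (e.symm (a * e x)) y = X x (e.symm (a ^ Q * e y)) := by
    intro a
    obtain ⟨P, rfl⟩ := hgen a
    induction P using Polynomial.induction_on' with
    | add P P' h h' =>
      intro x y
      rw [map_add, add_mul, map_add, map_add, LinearMap.add_apply, h, h', hadd, add_mul, map_add,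
        map_add]
    | monomial m f =>
      -- first the powers of the generator
      have hm : ∀ (m : ℕ) (x y : V), X (e.symm (θ ^ m * e x)) y =
          X x (e.symm ((θ ^ m) ^ Q * e y)) := by
        intro m
        induction m with
        | zero => intro x y; simp
        | succ m ih =>
          intro x y
          have h1 : e.symm (θ ^ (m + 1) * e x) = c (e.symm (θ ^ m * e x)) := by
            apply e.injective
            rw [LinearEquiv.apply_symm_apply, he, LinearEquiv.apply_symm_apply, pow_succ]
            ring
          have h2 : y = c (e.symm (θ ^ Q * e y)) := by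
            apply e.injective
            rw [he, LinearEquiv.apply_symm_apply, ← mul_assoc, ← pow_succ', hθQ, one_mul]
          rw [h1]
          nth_rewrite 1 [h2]
          rw [hXc, ih, LinearEquiv.apply_symm_apply, ← mul_assoc, ← mul_pow, ← pow_succ]
      intro x y
      have h1 : (Polynomial.aeval θ) (Polynomial.monomial m f) = algebraMap F L f * θ ^ m := by
        rw [Polynomial.aeval_monomial]
      rw [h1, mul_pow, ← map_pow, hFQ, mul_assoc, mul_assoc, ← Algebra.smul_def,
        ← Algebra.smul_def, map_smul, map_smul, map_smul, LinearMap.smul_apply, hm, (X x).map_smul]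
  -- the functional
  let g : L →ₗ[F] F :=
    (X.flip (e.symm 1)).comp e.symm.toLinearMap
  have hg : ∀ z, g z = X (e.symm z) (e.symm 1) := fun z => rfl
  have hXg : ∀ x y : V, X x y = g (e x * (e y) ^ Q) := by
    intro x y
    rw [hg]
    have h1 : e x * (e y) ^ Q = (e y) ^ Q * e x := mul_comm _ _
    rw [h1, hadj, hQQ, LinearEquiv.apply_symm_apply, mul_one, LinearEquiv.symm_apply_apply]
  have hsep : Algebra.IsSeparable F L := inferInstance
  have hB := traceForm_nondegenerate F L
  set α : L := ((Algebra.traceForm F L).toDual hB).symm g with hα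
  have hα2 : ∀ z, Algebra.trace F L (α * z) = g z := by
    intro z
    have h1 := LinearMap.BilinForm.apply_toDual_symm_apply (hB := hB) g z
    rw [Algebra.traceForm_apply] at h1
    exact h1
  have hX : ∀ x y, X x y = Algebra.trace F L (α * e x * (e y) ^ Q) := by
    intro x y
    rw [hXg, ← hα2, mul_assoc]
  have htr0 : ∀ a : L, (∀ z, Algebra.trace F L (a * z) = 0) → a = 0 := by
    intro a h
    exact hB.1 a fun z => h z
  have hα0 : α ≠ 0 := by
    intro h0
    obtain ⟨x, hx⟩ := exists_ne (0 : V)
    apply hx
    apply hnd
    intro y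
    rw [hX, h0, zero_mul, zero_mul, map_zero]
  have hκ' : algebraMap F L κ = 1 ∨ algebraMap F L κ = -1 := by
    rcases hκ with h | h
    · left; rw [h, map_one]
    · right; rw [h, map_neg, map_one]
  have hrel : α ^ Q = algebraMap F L κ * θ * α := by
    have h1 : ∀ z, Algebra.trace F L ((α ^ Q - algebraMap F L κ * θ * α) * z) = 0 := by
      intro z
      have h2 := hsym (e.symm z) (e.symm 1)
      rw [hX, hX, he, LinearEquiv.apply_symm_apply, LinearEquiv.apply_symm_apply, one_pow,
        mul_one, mul_one, ← htr (α * z ^ Q), mul_pow, hQQ] at h2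
      have h3 : κ * Algebra.trace F L (α * (θ * z)) =
          Algebra.trace F L (algebraMap F L κ * θ * α * z) := by
        rw [← smul_eq_mul, ← map_smul, Algebra.smul_def]
        congr 1
        ring
      rw [sub_mul, map_sub, h2, h3, sub_self]
    exact sub_eq_zero.1 (htr0 _ h1)
  refine ⟨L, fL, ftL, aL, e, α, algebraMap F L κ * θ, hcardL, ?_, hα0, hrel, hX⟩
  -- the degree
  have hint : IsIntegral F (algebraMap F L κ * θ) := Algebra.IsIntegral.isIntegral _
  rw [← IntermediateField.adjoin.finrank hint, ← hfinL]
  have htop : IntermediateField.adjoin F {algebraMap F L κ * θ} = ⊤ := by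
    rw [eq_top_iff]
    intro a _
    have h1 : algebraMap F L κ * θ ∈ IntermediateField.adjoin F {algebraMap F L κ * θ} :=
      IntermediateField.mem_adjoin_simple_self F _
    have h2 : θ ∈ IntermediateField.adjoin F {algebraMap F L κ * θ} := by
      have h3 := mul_mem (IntermediateField.algebraMap_mem
        (IntermediateField.adjoin F {algebraMap F L κ * θ}) κ) h1
      have h4 : algebraMap F L κ * (algebraMap F L κ * θ) = θ := by
        rw [← mul_assoc]
        rcases hκ' with h | h <;> rw [h] <;> ring
      rwa [h4] at h3
    obtain ⟨P, rfl⟩ := hgen a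
    have h3 : (Polynomial.aeval θ) P = ((Polynomial.aeval
      (⟨θ, h2⟩ : IntermediateField.adjoin F {algebraMap F L κ * θ})) P : L) := by
      rw [← IntermediateField.coe_val, ← Polynomial.aeval_algHom_apply]
      rfl
    rw [h3]
    exact Subtype.prop _
  rw [htop, IntermediateField.finrank_top']

end Pool.Agent.T9h41.Sing
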